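import Mathlib
import Pool.Agent.P.MP_d00095_nt.Core

set_option autoImplicit false

open NumberField

namespace Pool.Agent.Results.MP_d00095_nt.AllMaximalEuclidean

universe uK uH uW

variable {K : Type uK} [Field K] {H : Type uH} [Ring H] [Algebra K H]

/-- `bar` is the standard involution of the `K`-algebra `H`. -/
def IsStandardInvolution (bar : H →ₗ[K] H) : Prop :=
  bar 1 = 1 ∧ (∀ x y, bar (x * y) = bar y * bar x) ∧ (∀ x, bar (bar x) = x) ∧
    ∀ x, ∃ k : K, x * bar x = algebraMap K H k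

/-- An order: a subring which is a finitely generated module over the ring of integers and
spans `H` over `K`. -/
def IsOrder (O : Subalgebra (𝓞 K) H) : Prop :=
  O.toSubmodule.FG ∧ Submodule.span K (O : Set H) = ⊤

/-- An order mapped onto itself by the involution `s`. -/
def IsInvOrder (s : H → H) (O : Subalgebra (𝓞 K) H) : Prop :=
  IsOrder O ∧ s '' (O : Set H) = (O : Set H)

/-- The twisted Euclidean property, with values in a well-ordered set. -/
def IsTwistedEuclidean (s : H → H) (O : Subalgebra (𝓞 K) H) : Prop :=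
  ∃ (W : Type uW) (_ : LinearOrder W) (_ : WellFoundedLT W) (Φ : O → W),
    ∀ a b : O, b ≠ 0 → ((a : H) * s b ∈ O ∧ s ((a : H) * s b) = (a : H) * s b) →
      ∃ q : O, s q = q ∧ Φ (a - b * q) < Φ b

theorem result (K : Type uK) [Field K] [NumberField K] (H : Type uH) [Ring H] [Algebra K H]
    [Algebra.IsCentral K H] [IsSimpleRing H] (_hdim : Module.finrank K H = 4)
    (bar : H →ₗ[K] H) (hbar : IsStandardInvolution bar)
    (u : Hˣ) (hu : (u : H) ∉ Set.range (algebraMap K H))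
    (hu2 : (u : H) ^ 2 ∈ Set.range (algebraMap K H))
    (s : H → H) (hs : ∀ z, s z = u * bar z * (u⁻¹ : Hˣ))
    (hex : ∃ O : Subalgebra (𝓞 K) H, IsInvOrder s O ∧ IsTwistedEuclidean.{uK, uH, uW} s O)
    (O : Subalgebra (𝓞 K) H) (hO : Maximal (IsInvOrder s) O) :
    IsTwistedEuclidean.{uK, uH, uW} s O := by
  classical
  obtain ⟨h1, h2, h3, h4⟩ := hbar
  have hub : bar u = -u := by
    obtain ⟨k, hk⟩ := hu2
    obtain ⟨n, hn⟩ := h4 u
    obtain ⟨a, ha⟩ := h4 (1 + u)
    have ht : (u : H) + bar u = algebraMap K H (a - n - 1) := by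
      rw [map_sub, map_sub, ← ha, ← hn, map_add, h1, map_one]; noncomm_ring
    by_cases h0 : a - n - 1 = 0
    · rw [h0, map_zero] at ht
      exact eq_neg_of_add_eq_zero_right ht
    · exfalso
      apply hu
      refine ⟨(a - n - 1)⁻¹ * (k + n), ?_⟩
      have e : algebraMap K H (k + n) = algebraMap K H (a - n - 1) * u := by
        rw [map_add, hk, ← hn, Algebra.commutes, ← ht]; noncomm_ring
      rw [map_mul, e, ← mul_assoc, ← map_mul, inv_mul_cancel₀ h0, map_one, one_mul]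
  have hub' : bar (u⁻¹ : Hˣ) = -(u⁻¹ : Hˣ) := by
    have : bar (u⁻¹ : Hˣ) * bar u = 1 := by rw [← h2]; simp [h1]
    rw [hub] at this
    have := congrArg (fun x => -(x * ((u⁻¹ : Hˣ) : H))) this
    simpa [mul_assoc] using this
  let S : P.MP_d00095_nt.Setup K H :=
    { bar := bar, bar_one := h1, bar_mul := h2, bar_bar := h3, nrm := h4
      dd := (LinearMap.mulLeftRight K ((u : H), ((u⁻¹ : Hˣ) : H))).comp bar
      dd_one := by simp [h1]
      dd_mul := by intro x y; simp [h2, mul_assoc]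
      dd_dd := by intro x; simp [h2, h3, hub, hub', mul_assoc] }
  have hsd : ∀ z, s z = S.dd z := fun z => by rw [hs]; rfl
  have hinv : ∀ O : Subalgebra (𝓞 K) H,
      IsInvOrder s O ↔ P.MP_d00095_nt.Ord K O ∧ P.MP_d00095_nt.Stab S O := by
    intro O
    refine and_congr Iff.rfl ⟨fun h x hx => ?_, fun h => ?_⟩
    · have : s x ∈ s '' (O : Set H) := ⟨x, hx, rfl⟩
      rw [h, hsd] at this; exact this
    · ext x
      constructor
      · rintro ⟨y, hy, rfl⟩; rw [hsd]; exact h y hy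
      · intro hx; exact ⟨S.dd x, h x hx, by rw [hsd, S.dd_dd]⟩
  have heuc : ∀ O : Subalgebra (𝓞 K) H, P.MP_d00095_nt.Stab S O →
      (IsTwistedEuclidean.{uK, uH, uW} s O ↔ P.MP_d00095_nt.Euc.{uW} S O) := by
    intro O hSt
    constructor
    · rintro ⟨W, i1, i2, Φ, hΦ⟩
      refine ⟨W, i1, i2, fun x => if h : x ∈ O then Φ ⟨x, h⟩ else Φ 0, ?_⟩
      intro a ha b hb hb0 hab
      obtain ⟨q, hq, hlt⟩ := hΦ ⟨a, ha⟩ ⟨b, hb⟩ (fun h => hb0 (congrArg Subtype.val h))
        (by simp only [hsd]; exact ⟨O.mul_mem ha (hSt b hb), hab⟩)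
      refine ⟨q, q.2, by rw [← hsd]; exact hq, ?_⟩
      have hm : a - b * q ∈ O := O.sub_mem ha (O.mul_mem hb q.2)
      simp only [dif_pos hm, dif_pos hb]
      exact hlt
    · rintro ⟨W, i1, i2, Φ, hΦ⟩
      refine ⟨W, i1, i2, fun x => Φ x, ?_⟩
      intro a b hb0 hab
      obtain ⟨q, hq, hqs, hlt⟩ := hΦ a a.2 b b.2 (fun h => hb0 (Subtype.ext h))
        (by simpa only [hsd] using hab.2)
      exact ⟨⟨q, hq⟩, by rw [hsd]; exact hqs, hlt⟩
  obtain ⟨hO1, hO2⟩ := (hinv O).1 hO.prop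
  refine (heuc O hO2).2 (P.MP_d00095_nt.main S ?_ hO1 hO2 ?_)
  · obtain ⟨O₀, h0, h0'⟩ := hex
    obtain ⟨a, b⟩ := (hinv O₀).1 h0
    exact ⟨O₀, a, b, (heuc O₀ b).1 h0'⟩
  · intro O₁ a b hle
    exact hO.le_of_ge ((hinv O₁).2 ⟨a, b⟩) hle

end Pool.Agent.Results.MP_d00095_nt.AllMaximalEuclidean
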